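import Pool.Agent.R282.EV.Main

/-! Weak evasiveness fails for all degrees divisible by a large power of 30. -/

set_option autoImplicit false

namespace Pool.Agent.R282.EV

open Pool.Agent.Y825.EV (Shallow)

theorem shallow_mono {n k k' : ℕ} (h : Shallow n k) (hk : k ≤ k') : Shallow n k' := by
  obtain ⟨f, f1, f2, f3, T, T1, T2⟩ := h
  exact ⟨f, f1, f2, f3, T, T1, T2.trans hk⟩

theorem gap (m B n : ℕ) (hm : 2 ≤ m) (hB : m ∣ B) (hB0 : 0 < B)
    (h : ∀ r j : ℕ, 1 ≤ r → Shallow (r * m ^ j) (r * (m - 1) ^ j)) (hn : 1 ≤ n) (hd : B ∣ n) :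
    Shallow n (n - n / B) := by
  obtain ⟨t, rfl⟩ := hd
  obtain ⟨c, rfl⟩ := hB
  have hc : 0 < c := Nat.pos_of_ne_zero fun h0 => by simp [h0] at hB0
  have ht : 0 < t := Nat.pos_of_ne_zero fun h0 => by simp [h0] at hn
  have h1 := h (c * t) 1 (Nat.mul_pos hc ht)
  rw [pow_one, pow_one] at h1
  rw [Nat.mul_div_cancel_left t hB0]
  have e : c * t * m = m * c * t := by ring
  rw [e] at h1
  refine shallow_mono h1 ?_
  obtain ⟨l, rfl⟩ : ∃ l, m = l + 1 := ⟨m - 1, by omega⟩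
  rw [Nat.add_sub_cancel]
  have h2 : t ≤ c * t := Nat.le_mul_of_pos_left t hc
  have h3 : (l + 1) * c * t = c * t * l + c * t := by ring
  omega

theorem log30 : Real.log 30 ≤ 4 := by
  rw [Real.log_le_iff_le_exp (by norm_num)]
  have h1 : (2.7 : ℝ) ≤ Real.exp 1 := by linarith [Real.exp_one_gt_d9]
  have h2 : (2.7 : ℝ) ^ 4 ≤ Real.exp 1 ^ 4 := pow_le_pow_left₀ (by norm_num) h1 4
  rw [← Real.exp_nat_mul] at h2
  norm_num at h2 ⊢
  linarith

theorem weak (m A : ℕ) (hm : 2 ≤ m) (hA : 1 ≤ A) (hmA : m ∣ 30 ^ A)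
    (h : ∀ r j : ℕ, 1 ≤ r → Shallow (r * m ^ j) (r * (m - 1) ^ j)) (C n j : ℕ) (hC : 1 ≤ C)
    (hn : 1 ≤ n) (hj : A ≤ j) (hd : 30 ^ j ∣ n) (hnC : n ≤ 30 ^ (C * j)) :
    ∃ k : ℕ, Shallow n k ∧ (k : ℝ) < (n : ℝ) ^ (1 - 1 / (16 * A * C * 30 ^ A : ℝ)) := by
  set i := j / A with hi
  have hij : A * i ≤ j := Nat.mul_div_le j A
  have hi1 : 1 ≤ i := (Nat.one_le_div_iff (by omega)).2 hj
  have hji : j ≤ 2 * A * i := by
    have h1 : j < A * (i + 1) := by
      have := Nat.lt_mul_div_succ j (show 0 < A by omega)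
      simpa [hi] using this
    nlinarith
  have hmi : m ^ i ∣ n := by
    refine (pow_dvd_pow_of_dvd hmA i).trans ?_
    rw [← pow_mul]
    exact (pow_dvd_pow 30 hij).trans hd
  obtain ⟨r, hr⟩ := hmi
  have hr1 : 1 ≤ r := Nat.pos_of_ne_zero fun h0 => by simp [h0] at hr; omega
  have hS := h r i hr1
  rw [mul_comm r (m ^ i), ← hr] at hS
  refine ⟨r * (m - 1) ^ i, hS, ?_⟩
  have hmR : (2 : ℝ) ≤ m := by exact_mod_cast hm
  have hm0 : (0 : ℝ) < m := by linarith
  have hAR : (1 : ℝ) ≤ A := by exact_mod_cast hA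
  have hCR : (1 : ℝ) ≤ C := by exact_mod_cast hC
  have hB : (0 : ℝ) < 30 ^ A := by positivity
  have hmB : (m : ℝ) ≤ 30 ^ A := by exact_mod_cast Nat.le_of_dvd (by positivity) hmA
  have hn2 : 30 ≤ n := by
    have h1 : 30 ^ 1 ∣ n := (pow_dvd_pow 30 (by omega)).trans hd
    rw [pow_one] at h1
    exact Nat.le_of_dvd (by omega) h1
  have hnR : (30 : ℝ) ≤ n := by exact_mod_cast hn2
  have hn0 : (0 : ℝ) < n := by linarith
  have hlogn : 0 < Real.log n := Real.log_pos (by linarith)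
  set ε : ℝ := 1 / (16 * A * C * 30 ^ A : ℝ) with hε
  have hε0 : 0 < ε := by positivity
  -- the logarithm of `n`
  have hlog : Real.log n ≤ 4 * (C * j) := by
    have h1 : (n : ℝ) ≤ 30 ^ (C * j) := by exact_mod_cast hnC
    have h2 := Real.log_le_log hn0 h1
    rw [Real.log_pow] at h2
    push_cast at h2
    have h3 : (0 : ℝ) ≤ (C : ℝ) * j := by positivity
    nlinarith [log30]
  have hjR : (j : ℝ) ≤ 2 * A * i := by exact_mod_cast hji
  have hkey : 2 * ε * Real.log n ≤ i / m := by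
    have h1 : Real.log n ≤ 8 * C * A * i := by
      have h2 : (C : ℝ) * j ≤ C * (2 * A * i) := mul_le_mul_of_nonneg_left hjR (by linarith)
      linarith
    have h3 : 2 * ε * Real.log n ≤ 2 * ε * (8 * C * A * i) :=
      mul_le_mul_of_nonneg_left h1 (by positivity)
    have h4 : 2 * ε * (8 * C * A * i) = i / 30 ^ A := by
      rw [hε]
      field_simp
      ring
    rw [h4] at h3
    refine h3.trans ?_
    gcongr
  -- the number of queries
  have hcast : ((r * (m - 1) ^ i : ℕ) : ℝ) = n * (1 - 1 / m) ^ i := by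
    rw [Nat.cast_mul, Nat.cast_pow, Nat.cast_sub (by omega), Nat.cast_one, hr]
    push_cast
    have e : (1 - 1 / (m : ℝ)) = (m - 1) / m := by field_simp
    rw [e, div_pow]
    field_simp
  rw [hcast]
  have hexp : (1 - 1 / (m : ℝ)) ^ i ≤ Real.exp (-(i / m)) := by
    have h1 : 1 - 1 / (m : ℝ) ≤ Real.exp (-(1 / m)) := by
      have := Real.add_one_le_exp (-(1 / (m : ℝ)))
      linarith
    have h0 : 0 ≤ 1 - 1 / (m : ℝ) := by
      rw [sub_nonneg, div_le_one hm0]
      linarith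
    have h2 := pow_le_pow_left₀ h0 h1 i
    rw [← Real.exp_nat_mul] at h2
    refine h2.trans (le_of_eq ?_)
    congr 1
    ring
  calc (n : ℝ) * (1 - 1 / m) ^ i ≤ n * Real.exp (-(i / m)) :=
        mul_le_mul_of_nonneg_left hexp hn0.le
    _ ≤ n * Real.exp (-(2 * ε * Real.log n)) := by
        refine mul_le_mul_of_nonneg_left (Real.exp_le_exp.2 ?_) hn0.le
        linarith
    _ = (n : ℝ) ^ (1 - 2 * ε) := by
        rw [Real.rpow_def_of_pos hn0, mul_sub, mul_one, sub_eq_add_neg, Real.exp_add,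
          Real.exp_log hn0]
        congr 2
        ring
    _ < (n : ℝ) ^ (1 - ε) := by
        apply Real.rpow_lt_rpow_of_exponent_lt (by linarith)
        linarith

end Pool.Agent.R282.EV
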