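import Pool.Agent.H571R3.Asm
import Pool.Agent.Y825.EV.Many

/-! The symmetry group of the glued poset used here: its order divides `345600 = 2 ^ 9 3 ^ 3 5 ^ 2`. -/

set_option autoImplicit false

namespace Pool.Agent.R282.EV

open Pool.Agent.H571R3 Pool.Agent.H571R3.AUT885

/-- Thirteen points as `5 + 6 + 2` points. -/
def e13 : Fin 5 ⊕ (Fin 6 ⊕ Fin 2) ≃ Fin 13 :=
  (Equiv.sumCongr (Equiv.refl (Fin 5)) (finSumFinEquiv (m := 6) (n := 2))).trans
    (finSumFinEquiv (m := 5) (n := 8))

/-- Permutations of the three blocks. -/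
abbrev P3 : Type := Equiv.Perm (Fin 5) × (Equiv.Perm (Fin 6) × Equiv.Perm (Fin 2))

/-- The permutations of the thirteen points which preserve the blocks. -/
def J : P3 →* Equiv.Perm (Fin 13) :=
  (e13.permCongrHom.toMonoidHom).comp ((Equiv.Perm.sumCongrHom (Fin 5) (Fin 6 ⊕ Fin 2)).comp
    ((MonoidHom.id (Equiv.Perm (Fin 5))).prodMap (Equiv.Perm.sumCongrHom (Fin 6) (Fin 2))))

def a3 : Equiv.Perm (Fin 5) where
  toFun := ![1, 2, 0, 3, 4]
  invFun := ![2, 0, 1, 3, 4]
  left_inv := by decide
  right_inv := by decide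

def b3 : Equiv.Perm (Fin 6) where
  toFun := ![2, 5, 3, 0, 1, 4]
  invFun := ![3, 4, 0, 2, 5, 1]
  left_inv := by decide
  right_inv := by decide

def a5 : Equiv.Perm (Fin 5) where
  toFun := ![1, 2, 3, 4, 0]
  invFun := ![4, 0, 1, 2, 3]
  left_inv := by decide
  right_inv := by decide

def b5 : Equiv.Perm (Fin 6) where
  toFun := ![5, 3, 2, 4, 0, 1]
  invFun := ![4, 5, 2, 1, 3, 0]
  left_inv := by decide
  right_inv := by decide

theorem J3 : J (a3, (b3, 1)) = g3 := by
  apply Equiv.ext
  decide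

theorem J5 : J (a5, (b5, 1)) = g5 := by
  apply Equiv.ext
  decide

theorem Jsw : J (1, (1, Equiv.swap 0 1)) = gsw := by
  apply Equiv.ext
  decide

/-- Invariance of the complex. -/
abbrev Inv (g : Equiv.Perm (Fin 13)) : Prop :=
  ∀ s : Finset (Fin 13), s.map g.toEmbedding ∈ KK ↔ s ∈ KK

theorem map_mul' (g h : Equiv.Perm (Fin 13)) (s : Finset (Fin 13)) :
    s.map (g * h).toEmbedding = (s.map h.toEmbedding).map g.toEmbedding := by
  rw [Finset.map_map]
  rfl

theorem map_one'' (s : Finset (Fin 13)) :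
    s.map (1 : Equiv.Perm (Fin 13)).toEmbedding = s := by
  rw [show (1 : Equiv.Perm (Fin 13)).toEmbedding = Function.Embedding.refl _ from rfl,
    Finset.map_refl]

/-- The block permutations which preserve the complex. -/
def G0 : Subgroup P3 where
  carrier := {x | Inv (J x)}
  mul_mem' := by
    intro x y hx hy s
    rw [map_mul, map_mul', hx, hy]
  one_mem' := by
    intro s
    rw [map_one, map_one'']
  inv_mem' := by
    intro x hx s
    have h : (s.map (J x⁻¹).toEmbedding).map (J x).toEmbedding = s := by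
      rw [← map_mul', ← map_mul, mul_inv_cancel, map_one, map_one'']
    have h2 := hx (s.map (J x⁻¹).toEmbedding)
    rw [h] at h2
    exact h2.symm

theorem G0_inv (x : G0) : Inv (J x.1) := x.2

/-- The bit of an element of the group with two elements. -/
def bit (z : Multiplicative (ZMod 2)) : Bool := decide (Multiplicative.toAdd z = 1)

theorem bit_mul : ∀ z w : Multiplicative (ZMod 2), bit (z * w) = xor (bit z) (bit w) := by
  intro z w
  change decide (Multiplicative.toAdd z + Multiplicative.toAdd w = 1) = _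
  unfold bit
  generalize Multiplicative.toAdd z = a
  generalize Multiplicative.toAdd w = b
  revert a b
  decide

/-- The action on the glued poset. -/
noncomputable def Psi : G0 × Multiplicative (ZMod 2) →* Equiv.Perm (PP KK) :=
  MonoidHom.mk' (fun x => permPP (J x.1.1) (bit x.2) (G0_inv x.1)) (by
    rintro ⟨x, z⟩ ⟨y, w⟩
    apply Equiv.ext
    intro p
    show mapPP (J (x * y).1) (bit (z * w)) (G0_inv (x * y)) p =
      mapPP (J x.1) (bit z) (G0_inv x) (mapPP (J y.1) (bit w) (G0_inv y) p)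
    have h2 : (mapPP (J (x * y).1) (bit (z * w)) (G0_inv (x * y)) p).1.2 =
        (mapPP (J x.1) (bit z) (G0_inv x) (mapPP (J y.1) (bit w) (G0_inv y) p)).1.2 := by
      rw [mapPP_snd, mapPP_snd, mapPP_snd, ← map_mul', ← map_mul]
      rfl
    apply Subtype.ext
    apply Prod.ext
    · by_cases h : p.1.2 ∈ KK
      · have h' : (mapPP (J y.1) (bit w) (G0_inv y) p).1.2 ∈ KK := by
          rw [mapPP_snd]; exact (G0_inv y _).mpr h
        rw [mapPP_fst_of_mem _ _ _ _ h, mapPP_fst_of_mem _ _ _ _ h']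
      · have h' : (mapPP (J y.1) (bit w) (G0_inv y) p).1.2 ∉ KK := by
          rw [mapPP_snd]; exact fun h'' => h ((G0_inv y _).mp h'')
        rw [mapPP_fst_of_not_mem _ _ _ _ h, mapPP_fst_of_not_mem _ _ _ _ h',
          mapPP_fst_of_not_mem _ _ _ _ h, bit_mul]
        cases bit z <;> cases bit w <;> cases p.1.1 <;> rfl
    · exact h2)

/-- The symmetry group. -/
noncomputable def H : Subgroup (Equiv.Perm (PP KK)) := Psi.range

theorem card_H : Nat.card H ∣ 345600 := by
  have h1 : Nat.card H ∣ Nat.card (G0 × Multiplicative (ZMod 2)) := Subgroup.card_range_dvd Psi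
  have h2 : Nat.card G0 ∣ Nat.card P3 := Subgroup.card_subgroup_dvd_card G0
  have h3 : Nat.card P3 = 172800 := by
    rw [Nat.card_prod, Nat.card_prod, Nat.card_perm, Nat.card_perm, Nat.card_perm]
    simp [Nat.factorial]
  rw [Nat.card_prod, show Nat.card (Multiplicative (ZMod 2)) = 2 from by simp [Nat.card_eq_fintype_card]] at h1
  rw [h3] at h2
  exact h1.trans ((Nat.mul_dvd_mul h2 (dvd_refl 2)).trans (by norm_num))

theorem H_cc (g : Equiv.Perm (PP KK)) (hg : g ∈ H) (p q : PP KK) :
    cc KK (g p) (g q) ↔ cc KK p q := by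
  obtain ⟨x, rfl⟩ := hg
  exact permPP_cc (J x.1.1) (bit x.2) (G0_inv x.1) p q

theorem permPP_congr {g g' : Equiv.Perm (Fin 13)} {fl fl' : Bool} (h : g = g') (hf : fl = fl')
    (hg : Inv g) (hg' : Inv g') : permPP g fl hg = permPP g' fl' hg' := by
  subst h
  subst hf
  rfl

theorem mem_H (g : Equiv.Perm (Fin 13)) (hgen : g = g3 ∨ g = g5 ∨ g = gsw) (fl : Bool)
    (hg : Inv g) : permPP g fl hg ∈ H := by
  have hb : ∃ z : Multiplicative (ZMod 2), bit z = fl := by
    cases fl
    · exact ⟨Multiplicative.ofAdd 0, by decide⟩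
    · exact ⟨Multiplicative.ofAdd 1, by decide⟩
  obtain ⟨z, hz⟩ := hb
  have hx : ∃ x : P3, J x = g := by
    rcases hgen with rfl | rfl | rfl
    · exact ⟨_, J3⟩
    · exact ⟨_, J5⟩
    · exact ⟨_, Jsw⟩
  obtain ⟨x, hx⟩ := hx
  have hxi : x ∈ G0 := by
    show Inv (J x)
    rw [hx]
    exact hg
  exact ⟨(⟨x, hxi⟩, z), permPP_congr hx hz _ _⟩

theorem pp_auto' (x : PP KK) : ∃ g ∈ H, g x ≠ x ∧ ¬ cc KK (g x) x := by
  by_cases hx : x.1.2 ∈ KK
  · obtain ⟨g, hg, hne⟩ := KK_nofix x.1.2 hx x.2.1
    have hsym : Inv g := KK_sym g hg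
    refine ⟨permPP g false hsym, mem_H g hg false hsym, ?_, ?_⟩
    · intro h
      apply hne
      have := congrArg (fun p : PP KK => p.1.2) h
      exact this
    · rintro ⟨h, -⟩
      have hc : (x.1.2.map g.toEmbedding).card = x.1.2.card := Finset.card_map _
      rcases h with h | h
      · exact hne (Finset.eq_of_subset_of_card_le h (le_of_eq hc.symm))
      · exact hne (Finset.eq_of_subset_of_card_le h (le_of_eq hc)).symm
  · have hsym : Inv gsw := KK_sym gsw (Or.inr (Or.inr rfl))
    have hb : (permPP gsw true hsym x).1.1 = !x.1.1 := by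
      show (mapPP gsw true hsym x).1.1 = _
      rw [mapPP_fst_of_not_mem _ _ _ _ hx]
      cases x.1.1 <;> rfl
    have hs : (permPP gsw true hsym x).1.2 = x.1.2.map gsw.toEmbedding := rfl
    refine ⟨permPP gsw true hsym, mem_H gsw (Or.inr (Or.inr rfl)) true hsym, ?_, ?_⟩
    · intro h
      rw [h] at hb
      cases hc : x.1.1 <;> rw [hc] at hb <;> exact Bool.noConfusion hb
    · rintro ⟨-, h⟩
      rcases h with h | h | h
      · rw [hb] at h
        cases hc : x.1.1 <;> rw [hc] at h <;> exact Bool.noConfusion h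
      · rw [hs] at h
        exact hx ((hsym _).mp h)
      · exact hx h

theorem orbit_dvd (x : PP KK) : (MulAction.orbit H x).ncard ∣ 345600 := by
  rw [← MulAction.index_stabilizer]
  exact (Subgroup.index_dvd_card _).trans card_H

theorem card_PP : Nat.card (PP KK) ≤ 16384 := by
  have h : Nat.card (PP KK) ≤ Nat.card (Bool × Finset (Fin 13)) :=
    Nat.card_le_card_of_injective (fun p : PP KK => p.1) Subtype.val_injective
  refine h.trans (le_of_eq ?_)
  rw [Nat.card_prod, Nat.card_eq_fintype_card, Nat.card_eq_fintype_card, Fintype.card_bool,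
    Fintype.card_finset, Fintype.card_fin]
  norm_num

end Pool.Agent.R282.EV
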