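import Pool.Agent.R282.EV.Wrd

/-! Degrees with only the prime factors 2, 3, 5. -/

set_option autoImplicit false

namespace Pool.Agent.R282.EV

open Pool.Agent.H571R3 Pool.Agent.H571R3.AUT885
open Pool.Agent.Y825.EV (Shallow shallow_or orTree)
open Pool.Agent.H128R2.Evas (DT pow_tree PV pow pow_mono pow_const pow_trans card_PV)

/-- The orbits. -/
abbrev Q : Type := MulAction.orbitRel.Quotient H (PP KK)

theorem mk_eq_iff (u v : PP KK) : (Quotient.mk'' u : Q) = Quotient.mk'' v ↔
    ∃ g : Equiv.Perm (PP KK), g ∈ H ∧ g v = u := by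
  constructor
  · intro h
    have h' : (MulAction.orbitRel H (PP KK)) u v := Quotient.eq''.mp h
    rw [MulAction.orbitRel_apply] at h'
    obtain ⟨g, hg⟩ := h'
    exact ⟨g.1, g.2, hg⟩
  · rintro ⟨g, hg, hgv⟩
    apply Quotient.eq''.mpr
    show (MulAction.orbitRel H (PP KK)) u v
    rw [MulAction.orbitRel_apply]
    exact ⟨⟨g, hg⟩, hgv⟩

theorem pairwise_image (g : Equiv.Perm (PP KK)) (hg : g ∈ H) (A : Set (PP KK)) :
    (g '' A).Pairwise (cc KK) ↔ A.Pairwise (cc KK) := by
  have hg' := H_cc g hg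
  constructor
  · intro h a ha b hb hab
    exact (hg' a b).mp (h (Set.mem_image_of_mem g ha) (Set.mem_image_of_mem g hb)
      (fun h' => hab (g.injective h')))
  · rintro h _ ⟨a, ha, rfl⟩ _ ⟨b, hb, rfl⟩ hab
    exact (hg' a b).mpr (h ha hb (fun h' => hab (by rw [h'])))

/-- The main construction: for every number `K` of types not less than the number of orbits. -/
theorem construct (K : ℕ) [NeZero K] (hK : Nat.card Q ≤ K) :
    ∃ (W : Type) (_ : Fintype W) (f : (W → Bool) → Bool) (T : DT W),
    (∃ s : ZMod K → ℕ, (∀ i, s i ∣ 345600) ∧ Fintype.card W = K * ∏ i, (2 * s i)) ∧ Monotone f ∧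
    (∃ x y, f x ≠ f y) ∧
    (∀ i j : W, ∃ σ : Equiv.Perm W, σ i = j ∧ ∀ x : W → Bool, f (x ∘ σ) = f x) ∧
    (∀ x, T.eval x = f x) ∧ T.depth + 1 ≤ Fintype.card W := by
  classical
  haveI : Finite Q := Quotient.finite _
  have hcard : Nat.card (Q ⊕ Fin (K - Nat.card Q)) = Nat.card (ZMod K) := by
    rw [Nat.card_sum, Nat.card_fin, Nat.card_zmod]
    omega
  haveI : Finite (ZMod K) := inferInstance
  obtain ⟨ε⟩ : Nonempty (Q ⊕ Fin (K - Nat.card Q) ≃ ZMod K) := Finite.card_eq.1 hcard
  let mq : PP KK → Q := fun x => Quotient.mk'' x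
  let typ : PP KK ⊕ Fin (K - Nat.card Q) → ZMod K := Sum.elim (fun x => ε (Sum.inl (mq x)))
    (fun j => ε (Sum.inr j))
  let S : Set (PP KK ⊕ Fin (K - Nat.card Q)) → Prop := Gst (fun A => A.Pairwise (cc KK))
  have hsurj : Function.Surjective typ := by
    intro i
    rcases hi : ε.symm i with q | j
    · obtain ⟨x, hx⟩ := Quotient.exists_rep q
      refine ⟨Sum.inl x, ?_⟩
      show ε (Sum.inl (mq x)) = i
      have : mq x = q := hx
      rw [this, ← hi, Equiv.apply_symm_apply]
    · refine ⟨Sum.inr j, ?_⟩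
      show ε (Sum.inr j) = i
      rw [← hi, Equiv.apply_symm_apply]
  have hdown : ∀ A B : Set (PP KK ⊕ Fin (K - Nat.card Q)), A ⊆ B → S B → S A := fun A B hAB hB =>
    ⟨hB.1.mono (Set.preimage_mono hAB), fun j hj => hB.2 j (hAB hj)⟩
  have hempty : S ∅ := ⟨by simp, fun j hj => hj⟩
  have hfib : ∀ i, ¬ S {v | typ v = i} := by
    intro i hi
    obtain ⟨v, hv⟩ := hsurj i
    rcases v with x | j
    · obtain ⟨g, hg, hne, hnc⟩ := pp_auto' x
      have h1 : typ (Sum.inl (g x)) = i := by
        rw [← hv]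
        exact congrArg (fun q => ε (Sum.inl q)) ((mk_eq_iff (g x) x).2 ⟨g, hg, rfl⟩)
      exact hnc (hi.1 (show g x ∈ Sum.inl ⁻¹' {v | typ v = i} from h1)
        (show x ∈ Sum.inl ⁻¹' {v | typ v = i} from hv) hne)
    · exact hi.2 j hv
  have htr : ∀ u v, typ u = typ v → ∃ g : Equiv.Perm (PP KK ⊕ Fin (K - Nat.card Q)), g u = v ∧
      (∀ x, typ (g x) = typ x) ∧ ∀ A, S (g '' A) ↔ S A := by
    intro u v huv
    rcases u with x | j <;> rcases v with y | j'
    · have h1 : mq y = mq x := (Sum.inl_injective (ε.injective huv)).symm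
      obtain ⟨g, hg, hgx⟩ := (mk_eq_iff y x).1 h1
      refine ⟨Equiv.sumCongr g (Equiv.refl _), ?_, ?_, ?_⟩
      · simp [hgx]
      · rintro (z | j)
        · exact congrArg (fun q => ε (Sum.inl q)) ((mk_eq_iff (g z) z).2 ⟨g, hg, rfl⟩)
        · rfl
      · intro A
        have e1 : Sum.inl ⁻¹' ((Equiv.sumCongr g (Equiv.refl (Fin (K - Nat.card Q)))) '' A) =
            g '' (Sum.inl ⁻¹' A) := by
          ext z
          constructor
          · rintro ⟨w, hw, hwz⟩
            rcases w with w | w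
            · exact ⟨w, hw, Sum.inl_injective hwz⟩
            · exact absurd hwz (by simp)
          · rintro ⟨w, hw, rfl⟩
            exact ⟨Sum.inl w, hw, rfl⟩
        have e2 : ∀ j : Fin (K - Nat.card Q), (Sum.inr j ∈
            (Equiv.sumCongr g (Equiv.refl (Fin (K - Nat.card Q)))) '' A) ↔ Sum.inr j ∈ A := by
          intro j
          constructor
          · rintro ⟨w, hw, hwz⟩
            rcases w with w | w
            · exact absurd hwz (by simp)
            · have : w = j := Sum.inr_injective hwz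
              exact this ▸ hw
          · intro hj
            exact ⟨Sum.inr j, hj, rfl⟩
        have e3 := pairwise_image g hg (Sum.inl ⁻¹' A)
        rw [← e1] at e3
        exact and_congr e3 (forall_congr' fun j => not_congr (e2 j))
    · exact absurd (ε.injective huv) (by simp)
    · exact absurd (ε.injective huv) (by simp)
    · have h1 : j = j' := Sum.inr_injective (ε.injective huv)
      subst h1
      exact ⟨Equiv.refl _, rfl, fun _ => rfl, fun A => by simp⟩
  have hwin : Win S ∅ ∅ := by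
    have h1 : Win (fun A : Set (PP KK) => A.Pairwise (cc KK)) ∅ ∅ :=
      nep_win (cc KK) (Asm.cc_symm KK) (nep_glued (by norm_num) KK Asm.KK_down coll_KK)
    have h2 := win_gst (D := Fin (K - Nat.card Q)) h1
    rwa [Set.image_empty] at h2
  obtain ⟨W, hW, f, T, hc, h1, h2, h3, h4, h5⟩ :=
    assemble typ S hsurj hdown hempty hfib htr hwin
  refine ⟨W, hW, f, T, ⟨fun i => Nat.card {v // typ v = i}, fun i => ?_, ?_⟩, h1, h2, h3, h4, h5⟩
  · obtain ⟨v, hv⟩ := hsurj i
    show Nat.card {v // typ v = i} ∣ 345600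
    rcases v with x | j
    · have e : Nat.card {v // typ v = i} = (MulAction.orbit H x).ncard := by
        rw [← Nat.card_coe_set_eq]
        refine (Nat.card_congr (Equiv.ofBijective (fun y : MulAction.orbit H x =>
          (⟨Sum.inl y.1, ?_⟩ : {v // typ v = i})) ⟨?_, ?_⟩)).symm
        · obtain ⟨y, ⟨g, hg⟩⟩ := y
          rw [← hv]
          exact congrArg (fun q => ε (Sum.inl q)) ((mk_eq_iff y x).2 ⟨g.1, g.2, hg⟩)
        · intro y z hyz
          have := congrArg Subtype.val hyz
          exact Subtype.ext (Sum.inl_injective this)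
        · rintro ⟨v, hv'⟩
          rcases v with y | j
          · have h6 : mq y = mq x := Sum.inl_injective (ε.injective (hv'.trans hv.symm))
            obtain ⟨g, hg, hgx⟩ := (mk_eq_iff y x).1 h6
            exact ⟨⟨y, ⟨⟨g, hg⟩, hgx⟩⟩, rfl⟩
          · exact absurd (ε.injective (hv'.trans hv.symm)) (by simp)
      rw [e]
      exact orbit_dvd x
    · have e : Nat.card {v // typ v = i} = 1 := by
        rw [Nat.card_eq_one_iff_unique]
        refine ⟨⟨?_⟩, ⟨⟨Sum.inr j, hv⟩⟩⟩
        rintro ⟨v, hv1⟩ ⟨w, hw1⟩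
        have hx : ∀ v, typ v = i → v = Sum.inr j := by
          intro v hv1
          rcases v with y | j'
          · exact absurd (ε.injective (hv1.trans hv.symm)) (by simp)
          · have : j' = j := Sum.inr_injective (ε.injective (hv1.trans hv.symm))
            rw [this]
        exact Subtype.ext ((hx v hv1).trans (hx w hw1).symm)
      rw [e]
      exact one_dvd _
  · rw [hc, card_word]

/-- From one nonevasive function to all the functions needed. -/
theorem shallow_all (W : Type) [Fintype W] (f : (W → Bool) → Bool) (T : DT W) (hm : Monotone f)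
    (hnc : ∃ x y, f x ≠ f y)
    (htr : ∀ i j : W, ∃ σ : Equiv.Perm W, σ i = j ∧ ∀ x : W → Bool, f (x ∘ σ) = f x)
    (hT : ∀ x, T.eval x = f x) (hd : T.depth + 1 ≤ Fintype.card W) :
    2 ≤ Fintype.card W ∧
      ∀ r j : ℕ, 1 ≤ r → Shallow (r * Fintype.card W ^ j) (r * (Fintype.card W - 1) ^ j) := by
  have hdep : 1 ≤ T.depth := by
    obtain ⟨x, y, hxy⟩ := hnc
    cases T with
    | leaf b => exact absurd ((hT x).symm.trans (hT y)) hxy
    | node v t0 t1 => simp [DT.depth]
  have hf0 : f (fun _ => false) = false := by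
    by_contra h
    have h' : f (fun _ => false) = true := by simpa using h
    have hall : ∀ x, f x = true := fun x => by
      have h2 := hm (show (fun _ => false) ≤ x from fun _ => Bool.false_le _)
      rw [h'] at h2
      exact top_le_iff.mp h2
    obtain ⟨x, y, hxy⟩ := hnc
    exact hxy ((hall x).trans (hall y).symm)
  have hf1 : f (fun _ => true) = true := by
    by_contra h
    have h' : f (fun _ => true) = false := by simpa using h
    have hall : ∀ x, f x = false := fun x => by
      have h2 := hm (show x ≤ (fun _ => true) from fun _ => Bool.le_true _)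
      rw [h'] at h2
      exact le_bot_iff.mp h2
    obtain ⟨x, y, hxy⟩ := hnc
    exact hxy ((hall x).trans (hall y).symm)
  refine ⟨by omega, fun r j hr => ?_⟩
  obtain ⟨t, ht, htd⟩ := pow_tree f T hT j
  have := shallow_or (W := PV W j) r hr (k := (Fintype.card W - 1) ^ j) (pow f j) (pow_mono f hm j)
    (pow_const f false hf0 j) (pow_const f true hf1 j) (pow_trans f htr j) t ht
    (htd.trans (Nat.pow_le_pow_left (by omega) _))
  rwa [card_PV] at this

theorem card_Q : Nat.card Q ≤ 16384 := by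
  refine le_trans ?_ card_PP
  exact Nat.card_le_card_of_surjective (fun x : PP KK => (Quotient.mk'' x : Q))
    (fun q => Quotient.exists_rep q)

/-- There is a number `m` dividing `30 ^ 163854` such that for all `r ≥ 1` and `j` there is a
monotone transitive function of `r m ^ j` variables of complexity at most `r (m - 1) ^ j`. -/
theorem exists_m (K a : ℕ) (hK : Nat.card Q ≤ K) (hK0 : K ≠ 0) (ha : K ∣ 30 ^ a) :
    ∃ m : ℕ, 2 ≤ m ∧ m ∣ 30 ^ (a + 10 * K) ∧
    ∀ r j : ℕ, 1 ≤ r → Shallow (r * m ^ j) (r * (m - 1) ^ j) := by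
  haveI : NeZero K := ⟨hK0⟩
  obtain ⟨W, hW, f, T, ⟨s, hs, hc⟩, h1, h2, h3, h4, h5⟩ := construct K hK
  obtain ⟨h6, h7⟩ := shallow_all W f T h1 h2 h3 h4 h5
  refine ⟨Fintype.card W, h6, ?_, h7⟩
  rw [hc, pow_add]
  refine Nat.mul_dvd_mul ha ?_
  have h8 : ∏ i : ZMod K, (2 * s i) ∣ ∏ _i : ZMod K, 30 ^ 10 := by
    refine Finset.prod_dvd_prod_of_dvd _ _ fun i _ => ?_
    exact (Nat.mul_dvd_mul (dvd_refl 2) (hs i)).trans (by norm_num)
  rwa [Finset.prod_const, Finset.card_univ, ZMod.card, ← pow_mul] at h8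

end Pool.Agent.R282.EV
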