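import Pool.Agent.R282.EV.Fin

/-! The symmetry group has at most 239 orbits on the glued poset. -/

set_option autoImplicit false
set_option maxRecDepth 100000

namespace Pool.Agent.R282.EV

open Pool.Agent.H571R3 Pool.Agent.H571R3.AUT885
open Pool.Agent.H472R2.Evas (dec mem_dec dec_surj dec_zero dec_nonempty tb tb_eq)

def reps : ℕ := 0x8000808b00000000000000000000000000000000000000000000000000000000000000000000000000000000000000000000000000000000000000000000000000000000000000000000000000000000000000000000000000000000000000000000000000000000000000000000000000000000000000000000000000000000800088cb0000000000000000000000000000000000000000000000000000000000000000000000000000000000000000000000000000000000000000000000008800eebb000000000000000000000000808ac0cf000000000000000000000000b000b0bb0000000000000000000000008080ebeb000000008000a0cb8000808b0000000000000000000000000000000000000000000000000000000000000000000000000000000000000000000000000000000000000000000000000000000000000000000000000000000000000000000000000000000000000000000000000000000000000000000000000000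00000000000000000000000000000000000000000000000000000000000000000000000000000000000000000000000000000000000000000000000000000000000000000000000000000000000000000000000000000000000000000000000000000000000000000000000000000000000000000000000000000000000000000000000000000000000000000000000000008000808b00000000000000000000000000000000000000000000000000000000000000000000000000000000000000000000000000000000000000000000000000000000000000000000000000000000000000000000000000000000000000000000000000000000000000000000000000000000000000000000000000000000800088cb0000000000000000000000000000000000000000000000000000000000000000000000000000000000000000000000000000000000000000000000008800eebb000000000000000000000000808ac0cf000000000000000000000000b000b0bb0000000000000000000000008080ebeb000000008000a0cb8000808b8000808b00000000000000000000000000000000000000000000000000000000000000000000000000000000000000000000000000000000000000000000000000000000000000000000000000000000000000000000000000000000000000000000000000000000000000000000000000000000000000000000000000000000800088cb0000000000000000000000000000000000000000000000000000000000000000000000000000000000000000000000000000000000000000000000008800eebb000000000000000000000000808ac0cf000000000000000000000000b000b0bb0000000000000000000000008080ebeb000000008000a0cb8000808a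

def repsL : List ℕ := [1, 3, 7, 15, 31, 32, 33, 35, 38, 39, 45, 47, 63, 96, 97, 99, 101, 102, 103, 104, 105, 107, 109, 110, 111, 119, 127, 224, 225, 227, 228, 229, 231, 236, 237, 239, 252, 253, 255, 352, 353, 354, 355, 358, 359, 366, 367, 369, 371, 375, 383, 480, 481, 483, 484, 485, 487, 489, 490, 491, 493, 494, 495, 507, 511, 992, 993, 995, 998, 999, 1003, 1007, 1023, 2016, 2017, 2019, 2023, 2031, 2047, 2048, 2049, 2051, 2055, 2063, 2079, 2080, 2081, 2083, 2086, 2087, 2093, 2095, 2111, 2144, 2145, 2147, 2149, 2150, 2151, 2152, 2153, 2155, 2157, 2158, 2159, 2167, 2175, 2272, 2273, 2275, 2276, 2277, 2279, 2284, 2285, 2287, 2300, 2301, 2303, 2400, 2401, 2402, 2403, 2406, 2407, 2414, 2415, 2417, 2419, 2423, 2431, 2528, 2529, 2531, 2532, 2533, 2535, 2537, 2538, 2539, 2541, 2542, 2543, 2555, 2559, 3040, 3041, 3043, 3046, 3047, 3051, 3055, 3071, 4064, 4065, 4067, 4071, 4079, 4095, 6144, 6145, 6147, 6151, 6159, 6175, 6176, 6177, 6179, 6182, 6183, 6189, 6191, 6207, 6240, 6241, 6243, 6245, 6246, 6247, 6248, 6249, 6251, 6253, 6254, 6255, 6263, 6271, 6368, 6369, 6371,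 6372, 6373, 6375, 6380, 6381, 6383, 6396, 6397, 6399, 6496, 6497, 6498, 6499, 6502, 6503, 6510, 6511, 6513, 6515, 6519, 6527, 6624, 6625, 6627, 6628, 6629, 6631, 6633, 6634, 6635, 6637, 6638, 6639, 6651, 6655, 7136, 7137, 7139, 7142, 7143, 7147, 7151, 7167, 8160, 8161, 8163, 8167, 8175, 8191]

def ws : List (List ℕ) := [[0], [1], [2], [0, 0], [0, 1], [1, 0], [1, 1], [0, 1, 1], [1, 0, 0], [1, 0, 1], [0, 0, 1, 1], [0, 1, 0, 0], [1, 0, 0, 1], [1, 0, 1, 0], [1, 1, 0, 1], [0, 0, 1, 0, 1], [0, 1, 0, 1, 1], [0, 1, 1, 1, 0], [0, 1, 1, 1, 1], [1, 0, 1, 1, 1], [1, 1, 0, 0, 1], [0, 0, 1, 0, 1, 0], [1, 1, 1, 1, 0, 1], [0, 0, 1, 0, 1, 1, 1], [0, 1, 0, 1, 0, 0, 1], [1, 0, 1, 0, 1, 1, 1]]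

/-- The image of a bitmask under the map with the list of values `l`. -/
def actL (l : List ℕ) : ℕ → ℕ :=
  List.rec (motive := fun _ => ℕ → ℕ) (fun _ => 0)
    (fun a _ ih m => Nat.lor (Nat.shiftLeft (Nat.land m 1) a) (ih (Nat.shiftRight m 1))) l

theorem actL_nil (m : ℕ) : actL [] m = 0 := rfl

theorem actL_cons (a : ℕ) (l : List ℕ) (m : ℕ) :
    actL (a :: l) m = ((m &&& 1) <<< a) ||| actL l (m >>> 1) := rfl

theorem actL_testBit (l : List ℕ) (m j : ℕ) :
    (actL l m).testBit j = true ↔ ∃ i, l[i]? = some j ∧ m.testBit i = true := by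
  induction l generalizing m with
  | nil => simp [actL_nil]
  | cons a l ih =>
    rw [actL_cons, Nat.testBit_or, Bool.or_eq_true, ih]
    have hone : ∀ i : ℕ, (1 : ℕ).testBit i = decide (0 = i) := fun i => by
      have := Nat.testBit_two_pow (n := 0) (m := i)
      simpa using this
    have h0 : ((m &&& 1) <<< a).testBit j = true ↔ a = j ∧ m.testBit 0 = true := by
      rw [Nat.testBit_shiftLeft, Bool.and_eq_true, decide_eq_true_iff, Nat.testBit_and,
        Bool.and_eq_true, hone]
      constructor
      · rintro ⟨h1, h2, h3⟩
        have h4 : j - a = 0 := by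
          have := of_decide_eq_true h3
          omega
        rw [h4] at h2
        exact ⟨by omega, h2⟩
      · rintro ⟨rfl, h2⟩
        refine ⟨le_rfl, ?_⟩
        rw [Nat.sub_self]
        exact ⟨h2, by simp⟩
    rw [h0]
    constructor
    · rintro (⟨rfl, h⟩ | ⟨i, hi, h⟩)
      · exact ⟨0, rfl, h⟩
      · refine ⟨i + 1, by simpa using hi, ?_⟩
        rwa [Nat.testBit_shiftRight, add_comm] at h
    · rintro ⟨i, hi, h⟩
      cases i with
      | zero =>
        left
        exact ⟨by simpa using hi, h⟩
      | succ i =>
        right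
        refine ⟨i, by simpa using hi, ?_⟩
        rwa [Nat.testBit_shiftRight, add_comm]

theorem dec_actL (l : List ℕ) (g : Equiv.Perm (Fin 13)) (hl : ∀ i : Fin 13, l[i.val]? = some (g i).val)
    (hlen : l.length = 13) (m : ℕ) : dec (actL l m) = (dec m).map g.toEmbedding := by
  ext j
  rw [mem_dec, actL_testBit, Finset.mem_map]
  constructor
  · rintro ⟨i, hi, h⟩
    have hi13 : i < 13 := by
      by_contra hc
      rw [List.getElem?_eq_none (by omega)] at hi
      exact absurd hi (by simp)
    have h1 := hl ⟨i, hi13⟩
    rw [hi] at h1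
    refine ⟨⟨i, hi13⟩, mem_dec.2 h, ?_⟩
    exact Fin.ext (Option.some.inj h1).symm
  · rintro ⟨i, hi, rfl⟩
    exact ⟨i.val, hl i, mem_dec.1 hi⟩

def L3 : List ℕ := [1, 2, 0, 3, 4, 7, 10, 8, 5, 6, 9, 11, 12]
def L5 : List ℕ := [1, 2, 3, 4, 0, 10, 8, 7, 9, 5, 6, 11, 12]
def Ls : List ℕ := [0, 1, 2, 3, 4, 5, 6, 7, 8, 9, 10, 12, 11]

theorem dec3 (m : ℕ) : dec (actL L3 m) = (dec m).map g3.toEmbedding :=
  dec_actL L3 g3 (by decide) rfl m
theorem dec5 (m : ℕ) : dec (actL L5 m) = (dec m).map g5.toEmbedding :=
  dec_actL L5 g5 (by decide) rfl m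
theorem decs (m : ℕ) : dec (actL Ls m) = (dec m).map gsw.toEmbedding :=
  dec_actL Ls gsw (by decide) rfl m

/-- One generator. -/
def ap (k m : ℕ) : ℕ := cond (Nat.beq k 0) (actL L3 m) (cond (Nat.beq k 1) (actL L5 m) (actL Ls m))

/-- A word in the generators. -/
def apw (w : List ℕ) : ℕ → ℕ :=
  List.rec (motive := fun _ => ℕ → ℕ) (fun m => m) (fun k _ ih m => ih (ap k m)) w

/-- Sets in the same orbit. -/
def Conn (s t : Finset (Fin 13)) : Prop :=
  ∃ x : P3, Inv (J x) ∧ s.map (J x).toEmbedding = t

theorem Conn.refl (s : Finset (Fin 13)) : Conn s s :=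
  ⟨1, fun t => by rw [map_one, map_one''], by rw [map_one, map_one'']⟩

theorem Conn.trans {s t r : Finset (Fin 13)} (h1 : Conn s t) (h2 : Conn t r) : Conn s r := by
  obtain ⟨x, hx, hx'⟩ := h1
  obtain ⟨y, hy, hy'⟩ := h2
  refine ⟨y * x, fun a => ?_, ?_⟩
  · rw [map_mul, map_mul', hy, hx]
  · rw [map_mul, map_mul', hx', hy']

theorem conn_gen (g : Equiv.Perm (Fin 13)) (hg : g = g3 ∨ g = g5 ∨ g = gsw) (s : Finset (Fin 13)) :
    Conn s (s.map g.toEmbedding) := by
  have hx : ∃ x : P3, J x = g := by
    rcases hg with rfl | rfl | rfl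
    · exact ⟨_, J3⟩
    · exact ⟨_, J5⟩
    · exact ⟨_, Jsw⟩
  obtain ⟨x, hx⟩ := hx
  refine ⟨x, ?_, by rw [hx]⟩
  rw [hx]
  exact KK_sym g hg

theorem conn_ap (k m : ℕ) : Conn (dec m) (dec (ap k m)) := by
  unfold ap
  cases h1 : Nat.beq k 0
  · cases h2 : Nat.beq k 1
    · rw [cond_false, cond_false, decs]
      exact conn_gen _ (Or.inr (Or.inr rfl)) _
    · rw [cond_false, cond_true, dec5]
      exact conn_gen _ (Or.inr (Or.inl rfl)) _
  · rw [cond_true, dec3]
    exact conn_gen _ (Or.inl rfl) _

theorem conn_apw (w : List ℕ) (m : ℕ) : Conn (dec m) (dec (apw w m)) := by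
  induction w generalizing m with
  | nil => exact Conn.refl _
  | cons k w ih => exact (conn_ap k m).trans (ih (ap k m))

/-- Some word decreases the code. -/
def dn (m : ℕ) : Bool :=
  List.rec (motive := fun _ => Bool) false (fun w _ ih => cond (Nat.blt (apw w m) m) true ih) ws

theorem dn_spec_aux (l : List (List ℕ)) (m : ℕ)
    (h : List.rec (motive := fun _ => Bool) false
      (fun w _ ih => cond (Nat.blt (apw w m) m) true ih) l = true) : ∃ w, apw w m < m := by
  induction l with
  | nil => exact absurd h (by simp)
  | cons w l ih =>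
    cases h1 : Nat.blt (apw w m) m with
    | false =>
      have h2 : cond (Nat.blt (apw w m) m) true (List.rec (motive := fun _ => Bool) false
        (fun w _ ih => cond (Nat.blt (apw w m) m) true ih) l) = true := h
      rw [h1] at h2
      exact ih h2
    | true => exact ⟨w, by simpa [Nat.blt_eq] using h1⟩

theorem dn_spec {m : ℕ} (h : dn m = true) : ∃ w, apw w m < m := dn_spec_aux ws m h

/-- The test of all codes below `n`. -/
def tst (n : ℕ) : Bool :=
  Nat.rec (motive := fun _ => Bool) true (fun m ih => cond (tb reps m) ih (cond (dn m) ih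
    (cond (Nat.beq m 0) ih false))) n

theorem tst_spec : ∀ {n : ℕ}, tst n = true → ∀ m, m < n → m ≠ 0 →
    reps.testBit m = true ∨ dn m = true := by
  intro n
  induction n with
  | zero => intro _ m hm; exact absurd hm (Nat.not_lt_zero _)
  | succ n ih =>
    intro h m hm h0
    have h' : cond (tb reps n) (tst n) (cond (dn n) (tst n) (cond (Nat.beq n 0) (tst n) false)) =
      true := h
    rcases Nat.lt_succ_iff_lt_or_eq.mp hm with h1 | h1
    · apply ih _ m h1 h0
      cases e1 : tb reps n <;> rw [e1] at h'
      · cases e2 : dn n <;> rw [e2] at h'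
        · cases e3 : Nat.beq n 0 <;> rw [e3] at h'
          · exact absurd h' (by simp)
          · exact h'
        · exact h'
      · exact h'
    · subst h1
      cases e1 : tb reps m with
      | true => left; rw [← tb_eq]; exact e1
      | false =>
        right
        rw [e1] at h'
        cases e2 : dn m with
        | true => rfl
        | false =>
          rw [e2] at h'
          have e3 : Nat.beq m 0 = false := by
            cases e4 : Nat.beq m 0 with
            | false => rfl
            | true => exact absurd (Nat.eq_of_beq_eq_true e4) h0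
          rw [e3] at h'
          exact absurd h' (by simp)

theorem tst_all : tst 8192 = true := by decide +kernel

/-- Membership of all set bits in the list. -/
def lst (n : ℕ) : Bool :=
  Nat.rec (motive := fun _ => Bool) true (fun m ih => cond (tb reps m)
    (cond (repsL.contains m) ih false) ih) n

theorem lst_spec : ∀ {n : ℕ}, lst n = true → ∀ m, m < n → reps.testBit m = true → m ∈ repsL := by
  intro n
  induction n with
  | zero => intro _ m hm; exact absurd hm (Nat.not_lt_zero _)
  | succ n ih =>
    intro h m hm hD
    have h' : cond (tb reps n) (cond (repsL.contains n) (lst n) false) (lst n) = true := h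
    rcases Nat.lt_succ_iff_lt_or_eq.mp hm with h1 | h1
    · apply ih _ m h1 hD
      cases e1 : tb reps n <;> rw [e1] at h'
      · exact h'
      · cases e2 : repsL.contains n <;> rw [e2] at h'
        · exact absurd h' (by simp)
        · exact h'
    · subst h1
      have e1 : tb reps m = true := by rw [tb_eq]; exact hD
      rw [e1] at h'
      cases e2 : repsL.contains m with
      | false => rw [e2] at h'; exact absurd h' (by simp)
      | true => simpa using e2

theorem lst_all : lst 8192 = true := by decide +kernel

theorem length_repsL : repsL.length = 239 := by decide +kernel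

/-- Every nonempty set is in the orbit of a representative. -/
theorem exists_rep : ∀ m : ℕ, m < 8192 → m ≠ 0 → ∃ r ∈ repsL, Conn (dec m) (dec r) := by
  intro m
  induction m using Nat.strong_induction_on with
  | _ m ih =>
    intro hm h0
    rcases tst_spec tst_all m hm h0 with h | h
    · exact ⟨m, lst_spec lst_all m hm h, Conn.refl _⟩
    · obtain ⟨w, hw⟩ := dn_spec h
      have hc := conn_apw w m
      have hne : apw w m ≠ 0 := by
        intro h1
        obtain ⟨x, -, hx⟩ := hc
        rw [h1, dec_zero] at hx
        have h2 : ((dec m).map (J x).toEmbedding).Nonempty := ((dec_nonempty hm).2 h0).map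
        rw [hx] at h2
        exact Finset.not_nonempty_empty h2
      obtain ⟨r, hr, h1⟩ := ih _ hw (by omega) hne
      exact ⟨r, hr, hc.trans h1⟩

theorem mem_H' (x : P3) (hx : Inv (J x)) (fl : Bool) : permPP (J x) fl hx ∈ H := by
  have hb : ∃ z : Multiplicative (ZMod 2), bit z = fl := by
    cases fl
    · exact ⟨Multiplicative.ofAdd 0, by decide⟩
    · exact ⟨Multiplicative.ofAdd 1, by decide⟩
  obtain ⟨z, hz⟩ := hb
  exact ⟨(⟨x, hx⟩, z), permPP_congr rfl hz _ _⟩

/-- The element of the lower copy with a given set. -/
def low (s : Finset (Fin 13)) (hs : s.Nonempty) : PP KK := ⟨(false, s), hs, fun _ => rfl⟩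

theorem card_Q' : Nat.card Q ≤ 239 := by
  classical
  have h1 : Function.Surjective (fun i : Fin repsL.length =>
      if h : (dec repsL[i]).Nonempty then (Quotient.mk'' (low _ h) : Q)
      else Quotient.mk'' (low {0} (Finset.singleton_nonempty 0))) := by
    intro q
    obtain ⟨x, rfl⟩ := Quotient.exists_rep q
    obtain ⟨m, hm, hmx⟩ := dec_surj x.1.2
    have h0 : m ≠ 0 := by
      rintro rfl
      have := x.2.1
      rw [← hmx, dec_zero] at this
      exact Finset.not_nonempty_empty this
    obtain ⟨r, hr, y, hy, hyr⟩ := exists_rep m hm h0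
    obtain ⟨i, hi, hir⟩ := List.getElem_of_mem hr
    refine ⟨⟨i, hi⟩, ?_⟩
    have hne : (dec repsL[i]).Nonempty := by
      rw [hir, ← hyr, hmx]
      exact x.2.1.map
    show (if h : (dec repsL[i]).Nonempty then (Quotient.mk'' (low _ h) : Q)
      else Quotient.mk'' (low {0} (Finset.singleton_nonempty 0))) = Quotient.mk'' x
    rw [dif_pos hne]
    refine (mk_eq_iff _ _).2 ⟨permPP (J y) x.1.1 hy, mem_H' y hy x.1.1, ?_⟩
    show mapPP (J y) x.1.1 hy x = low _ hne
    apply Subtype.ext
    apply Prod.ext
    · by_cases h : x.1.2 ∈ KK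
      · rw [mapPP_fst_of_mem _ _ _ _ h]
        rfl
      · rw [mapPP_fst_of_not_mem _ _ _ _ h]
        show xor x.1.1 x.1.1 = false
        cases x.1.1 <;> rfl
    · rw [mapPP_snd, ← hmx, hyr, ← hir]
      rfl
  have h2 := Nat.card_le_card_of_surjective _ h1
  rwa [Nat.card_fin, length_repsL] at h2

/-- There is a number `m` dividing `30 ^ 2404` such that for all `r ≥ 1` and `j` there is a monotone
transitive function of `r m ^ j` variables of complexity at most `r (m - 1) ^ j`. -/
theorem exists_m' : ∃ m : ℕ, 2 ≤ m ∧ m ∣ 30 ^ 2404 ∧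
    ∀ r j : ℕ, 1 ≤ r → Pool.Agent.Y825.EV.Shallow (r * m ^ j) (r * (m - 1) ^ j) :=
  exists_m 240 4 (card_Q'.trans (by norm_num)) (by norm_num) (by norm_num)

end Pool.Agent.R282.EV
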