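import Pool.Agent.R282.EV.Grp

/-! The number of words; lifting a strategy to a complex with additional ghost vertices; assembly. -/

set_option autoImplicit false

namespace Pool.Agent.R282.EV

open Pool.Agent.H571R3 Pool.Agent.H571R3.AUT885

section card

variable {V : Type} [Finite V] {k : ℕ} [NeZero k] (typ : V → ZMod k)

/-- Words of a fixed shift. -/
def fibEquiv (s : ZMod k) : {w : Word typ // typ (w.1 0).1 = s} ≃
    ((c : ZMod k) → {p : V × Bool // typ p.1 = c + s}) where
  toFun w c := ⟨w.1.1 c, by rw [w.1.2 c, w.2]⟩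
  invFun f := ⟨⟨fun c => (f c).1, fun c => by rw [(f c).2, (f 0).2, zero_add]⟩, by
    show typ (f 0).1.1 = s
    rw [(f 0).2, zero_add]⟩
  left_inv w := rfl
  right_inv f := rfl

/-- The letters of a type. -/
def letEquiv (i : ZMod k) : {p : V × Bool // typ p.1 = i} ≃ {v : V // typ v = i} × Bool where
  toFun p := (⟨p.1.1, p.2⟩, p.1.2)
  invFun q := ⟨(q.1.1, q.2), q.1.2⟩
  left_inv p := rfl
  right_inv q := rfl

theorem card_word : Nat.card (Word typ) = k * ∏ i : ZMod k, (2 * Nat.card {v : V // typ v = i}) := by
  have h1 : Nat.card (Word typ) = ∑ s : ZMod k, Nat.card {w : Word typ // typ (w.1 0).1 = s} := by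
    rw [← Nat.card_sigma]
    exact Nat.card_congr (Equiv.sigmaFiberEquiv fun w : Word typ => typ (w.1 0).1).symm
  have h2 : ∀ s : ZMod k, Nat.card {w : Word typ // typ (w.1 0).1 = s} =
      ∏ i : ZMod k, (2 * Nat.card {v : V // typ v = i}) := by
    intro s
    rw [Nat.card_congr (fibEquiv typ s), Nat.card_pi]
    have h3 : ∀ c : ZMod k, Nat.card {p : V × Bool // typ p.1 = c + s} =
        2 * Nat.card {v : V // typ v = c + s} := by
      intro c
      rw [Nat.card_congr (letEquiv typ (c + s)), Nat.card_prod, Nat.card_eq_fintype_card (α := Bool),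
        Fintype.card_bool, mul_comm]
    simp only [h3]
    exact Fintype.prod_equiv (Equiv.addRight s) _ _ fun c => rfl
  rw [h1, Finset.sum_congr rfl fun s _ => h2 s, Finset.sum_const, Finset.card_univ, ZMod.card,
    smul_eq_mul]

end card

/-- The complex with ghost vertices. -/
def Gst {V D : Type} (f : Set V → Prop) (A : Set (V ⊕ D)) : Prop :=
  f (Sum.inl ⁻¹' A) ∧ ∀ j : D, Sum.inr j ∉ A

theorem win_gst {V D : Type} {f : Set V → Prop} {T N : Set V} (h : Win f T N) :
    Win (Gst (D := D) f) (Sum.inl '' T) (Sum.inl '' N) := by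
  induction h with
  | irrel T N w hT hN h =>
    refine Win.irrel _ _ (Sum.inl w) ?_ ?_ ?_
    · rintro ⟨x, hx, hxw⟩
      exact hT (Sum.inl_injective hxw ▸ hx)
    · rintro ⟨x, hx, hxw⟩
      exact hN (Sum.inl_injective hxw ▸ hx)
    · intro X hTX hXN
      have h1 := h (Sum.inl ⁻¹' X) (fun x hx => hTX ⟨x, hx, rfl⟩) (by
        rw [Set.disjoint_left]
        intro x hx hxN
        exact Set.disjoint_left.1 hXN hx ⟨x, hxN, rfl⟩)
      have e1 : (Sum.inl ⁻¹' (insert (Sum.inl w) X) : Set V) = insert w (Sum.inl ⁻¹' X) := by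
        ext x
        simp
      have e2 : (Sum.inl ⁻¹' (X \ {Sum.inl w}) : Set V) = (Sum.inl ⁻¹' X) \ {w} := by
        ext x
        simp
      unfold Gst
      rw [e1, e2, h1]
      refine and_congr_right fun _ => forall_congr' fun j => ?_
      simp
  | query T N w hT hN _ _ ih1 ih2 =>
    refine Win.query _ _ (Sum.inl w) ?_ ?_ ?_ ?_
    · rintro ⟨x, hx, hxw⟩
      exact hT (Sum.inl_injective hxw ▸ hx)
    · rintro ⟨x, hx, hxw⟩
      exact hN (Sum.inl_injective hxw ▸ hx)
    · rw [Set.image_insert_eq] at ih1
      exact ih1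
    · rw [Set.image_insert_eq] at ih2
      exact ih2

/-- Assembly: a nonevasive complex with transitive types gives a transitive function. -/
theorem assemble {V : Type} [Finite V] {k : ℕ} [NeZero k] (typ : V → ZMod k) (S : Set V → Prop)
    (hsurj : Function.Surjective typ) (hdown : ∀ A B : Set V, A ⊆ B → S B → S A)
    (hempty : S ∅) (hfib : ∀ i, ¬ S {v | typ v = i})
    (htr : ∀ u v, typ u = typ v → ∃ g : Equiv.Perm V, g u = v ∧ (∀ x, typ (g x) = typ x) ∧
      ∀ A : Set V, S (g '' A) ↔ S A)
    (hwin : Win S ∅ ∅) : ∃ (W : Type) (_ : Fintype W) (f : (W → Bool) → Bool)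
    (T : Pool.Agent.H128R2.Evas.DT W), Fintype.card W = Nat.card (Word typ) ∧ Monotone f ∧
    (∃ x y, f x ≠ f y) ∧
    (∀ i j : W, ∃ σ : Equiv.Perm W, σ i = j ∧ ∀ x : W → Bool, f (x ∘ σ) = f x) ∧
    (∀ x, T.eval x = f x) ∧ T.depth + 1 ≤ Fintype.card W := by
  classical
  have hred := reduction typ S hsurj hdown hfib hwin
  haveI : Finite (Word typ) := by unfold Word; infer_instance
  haveI : Fintype (Word typ) := Fintype.ofFinite _
  obtain ⟨t, ht, hdep⟩ := win_tree (BigF typ S) hred
  refine ⟨Word typ, inferInstance, fun x => decide (BigF typ S {w | x w = true}),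
    t, (Nat.card_eq_fintype_card).symm, ?_, ?_, ?_, ?_, hdep⟩
  · intro x y hxy
    by_cases h : BigF typ S {w | x w = true}
    · have h2 : BigF typ S {w | y w = true} := by
        refine bigF_mono typ _ hdown ?_ h
        intro w hw
        have h3 := hxy w
        have hw' : x w = true := hw
        rw [hw'] at h3
        exact top_le_iff.mp h3
      simp only [h, h2, decide_true, le_refl]
    · simp only [h, decide_false]
      exact bot_le
  · refine ⟨fun _ => true, fun _ => false, ?_⟩
    have h1 : BigF typ S {w | (fun _ : Word typ => true) w = true} := by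
      have : {w : Word typ | (fun _ : Word typ => true) w = true} = Set.univ := by
        ext w; simp
      rw [this]
      exact bigF_univ typ _ hsurj hempty
    have h2 : ¬ BigF typ S {w | (fun _ : Word typ => false) w = true} := by
      have : {w : Word typ | (fun _ : Word typ => false) w = true} = ∅ := by
        ext w; simp
      rw [this]
      exact bigF_empty typ _ hdown hfib
    intro h3
    have h4 := (decide_eq_true h1).symm.trans (h3.trans (decide_eq_false h2))
    exact Bool.noConfusion h4
  · intro w w'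
    obtain ⟨σ, hσ, h⟩ := bigF_trans typ S htr w w'
    refine ⟨σ, hσ, fun x => ?_⟩
    have himg : σ '' {u | (x ∘ σ) u = true} = {u | x u = true} := by
      ext u
      constructor
      · rintro ⟨v, hv, rfl⟩
        exact hv
      · intro hu
        refine ⟨σ.symm u, ?_, σ.apply_symm_apply u⟩
        show x (σ (σ.symm u)) = true
        rw [σ.apply_symm_apply]
        exact hu
    have h3 := h {u | (x ∘ σ) u = true}
    rw [himg] at h3
    exact (decide_eq_decide.mpr h3.symm)
  · intro x
    have h1 := ht x
    by_cases h : BigF typ S {w | x w = true}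
    · rw [h1.mpr h]
      exact (decide_eq_true h).symm
    · cases h4 : t.eval x with
      | false => exact (decide_eq_false h).symm
      | true => exact absurd (h1.mp h4) h

end Pool.Agent.R282.EV
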